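import Pool.Agent.Helper82.MAH.Spec

/-!
# MAH: part FOC (first order condition)
-/

set_option autoImplicit false

open MeasureTheory Filter Topology Set
open scoped ENNReal InnerProductSpace

namespace Pool.Agent.H62.MAH.FOC

open Helper82.MAH

variable {d : ℕ}

theorem e_nonneg (K : CC d) {v : E d} (hv : v ∈ K.C) : 0 ≤ ⟪K.e, v⟫_ℝ := by
  by_cases h : v = 0
  · rw [h, inner_zero_right]
  · exact (K.pos v hv h).le

theorem cl_mono {K : CC d} {a b M : ℝ} {ψ : E d → ℝ} (ha : a ≤ M) (hb : b ≤ M)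
    (h : Cl K a b ψ) : Cl K M M ψ := fun x v hv =>
  ⟨(h x v hv).1.trans (by have := mul_le_mul_of_nonneg_right ha (e_nonneg K hv); linarith),
    (h x v hv).2.trans (by have := mul_le_mul_of_nonneg_right hb (e_nonneg K hv); linarith)⟩

theorem cont_of {ψ : E d → ℝ} {c : ℝ} (hc : 0 < c) (h : ∀ x y, |ψ x - ψ y| ≤ c * ‖x - y‖) :
    Continuous ψ := by
  have : LipschitzWith ⟨c, hc.le⟩ ψ := LipschitzWith.of_dist_le_mul fun x y => by
    rw [Real.dist_eq, dist_eq_norm]
    exact h x y
  exact this.continuous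

theorem exp_conv (u v : ℝ) : Real.exp u - Real.exp v ≤ (u - v) * Real.exp u := by
  have h := Real.add_one_le_exp (v - u)
  have h1 : Real.exp v = Real.exp u * Real.exp (v - u) := by rw [← Real.exp_add]; ring_nf
  rw [h1]
  nlinarith [Real.exp_pos u]

theorem main (hNRM : S_NRM) (hCLS : S_CLS) (hINT : S_INT) (hITG : S_ITG) : S_FOC := by
  intro d K a b β ψ ha hb hβ hP f hf
  obtain ⟨hSG, hCl, hmin⟩ := hP
  have ha0 : 0 < a := by linarith
  have hb0 : 0 < b := by linarith
  obtain ⟨c1, hc1, L1⟩ := (hCLS d K a b ha0 hb0).2.2 ψ hCl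
  obtain ⟨c2, hc2, L2⟩ := (hCLS d K a b ha0 hb0).2.2 f hf
  obtain ⟨-, -, -, -, -, -, -, ⟨c0, hc0, hn⟩, -, -⟩ := hNRM d K 1 1 one_pos one_pos
  obtain ⟨-, c, hc⟩ := id hSG
  set M := max a b with hM
  have hψM := cl_mono (le_max_left a b) (le_max_right a b) hCl
  have hfM := cl_mono (le_max_left a b) (le_max_right a b) hf
  obtain ⟨iβ, iβψ⟩ := hITG d K β ψ M hβ hψM
  obtain ⟨-, iβf⟩ := hITG d K β f M hβ hfM
  obtain ⟨iψ, iψψ⟩ := hITG d K ψ ψ M hSG hψM
  obtain ⟨-, iψf⟩ := hITG d K ψ f M hSG hfM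
  have cψ : Continuous ψ := cont_of hc1 L1
  have cf : Continuous f := cont_of hc2 L2
  set g : E d → ℝ := fun x => f x - ψ x with hg
  have cg : Continuous g := cf.sub cψ
  set B : ℝ := |f 0| + |ψ 0| + c1 + c2 with hB
  have hB0 : 0 < B := by positivity
  have gB : ∀ x, |g x| ≤ B * (1 + ‖x‖) := by
    intro x
    have h1 := L1 x 0
    have h2 := L2 x 0
    rw [sub_zero] at h1 h2
    have h3 : g x = (f x - f 0) - (ψ x - ψ 0) + (f 0 - ψ 0) := by rw [hg]; ring
    have h4 : |g x| ≤ |f x - f 0| + |ψ x - ψ 0| + (|f 0| + |ψ 0|) := by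
      rw [h3]
      refine (abs_add_le _ _).trans (add_le_add (abs_sub _ _) (abs_sub _ _))
    have h5 := norm_nonneg x
    have h6 := abs_nonneg (f 0)
    have h7 := abs_nonneg (ψ 0)
    rw [hB]
    nlinarith
  -- the threshold
  set l0 : ℝ := min 1 (c0 / (2 * B)) with hl0
  have hl0p : 0 < l0 := lt_min one_pos (by positivity)
  have hexp : ∀ l, 0 ≤ l → l ≤ l0 → ∀ x, Real.exp (-(ψ x + l * g x)) ≤
      Real.exp (c + c0 / 2) * Real.exp (-(c0 / 2 * ‖x‖)) := by
    intro l hl hl' x
    rw [← Real.exp_add]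
    apply Real.exp_le_exp.mpr
    have h1 := hc x
    have h2 := hn x
    have h3 := gB x
    have h4 : l * |g x| ≤ c0 / (2 * B) * (B * (1 + ‖x‖)) :=
      mul_le_mul (hl'.trans (min_le_right _ _)) h3 (abs_nonneg _) (by positivity)
    have h5 : c0 / (2 * B) * (B * (1 + ‖x‖)) = c0 / 2 * (1 + ‖x‖) := by field_simp
    have h6 : -(l * g x) ≤ l * |g x| := by
      have := neg_abs_le (g x)
      nlinarith
    rw [h5] at h4
    linarith
  have iexp : ∀ l, 0 ≤ l → l ≤ l0 → Integrable (fun x => Real.exp (-(ψ x + l * g x))) := by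
    intro l hl hl'
    have h1 := (hINT d (c0 / 2) 0 (by positivity)).const_mul (Real.exp (c + c0 / 2))
    refine h1.mono' ?_ (Eventually.of_forall fun x => ?_)
    · exact (by fun_prop : Continuous fun x => Real.exp (-(ψ x + l * g x))).aestronglyMeasurable
    · rw [Real.norm_of_nonneg (Real.exp_pos _).le]
      have := hexp l hl hl' x
      simpa using this
  have iG : ∀ l, 0 ≤ l → l ≤ l0 → Integrable (fun x => g x * Real.exp (-(ψ x + l * g x))) ∧
      ∀ x, ‖g x * Real.exp (-(ψ x + l * g x))‖ ≤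
        B * Real.exp (c + c0 / 2) * ((1 + ‖x‖) ^ 1 * Real.exp (-(c0 / 2 * ‖x‖))) := by
    intro l hl hl'
    have hbd : ∀ x, ‖g x * Real.exp (-(ψ x + l * g x))‖ ≤
        B * Real.exp (c + c0 / 2) * ((1 + ‖x‖) ^ 1 * Real.exp (-(c0 / 2 * ‖x‖))) := by
      intro x
      rw [norm_mul, Real.norm_eq_abs, Real.norm_of_nonneg (Real.exp_pos _).le]
      calc |g x| * Real.exp (-(ψ x + l * g x))
          ≤ (B * (1 + ‖x‖)) * (Real.exp (c + c0 / 2) * Real.exp (-(c0 / 2 * ‖x‖))) :=
            mul_le_mul (gB x) (hexp l hl hl' x) (Real.exp_pos _).le (by positivity)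
        _ = _ := by ring
    refine ⟨?_, hbd⟩
    have h1 := (hINT d (c0 / 2) 1 (by positivity)).const_mul (B * Real.exp (c + c0 / 2))
    refine h1.mono' ?_ (Eventually.of_forall hbd)
    exact (by fun_prop : Continuous fun x =>
      g x * Real.exp (-(ψ x + l * g x))).aestronglyMeasurable
  have iβg : Integrable (fun x => Real.exp (-β x) * g x) := by
    have := iβf.sub iβψ
    refine this.congr (Eventually.of_forall fun x => ?_)
    simp only [Pi.sub_apply, hg]
    ring
  have iψg : Integrable (fun x => Real.exp (-ψ x) * g x) := by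
    have := iψf.sub iψψ
    refine this.congr (Eventually.of_forall fun x => ?_)
    simp only [Pi.sub_apply, hg]
    ring
  -- the inequality for small `l`
  have key : ∀ l, 0 < l → l ≤ l0 →
      ∫ x, g x * Real.exp (-(ψ x + l * g x)) ≤ ∫ x, Real.exp (-β x) * g x := by
    intro l hl hl'
    have hl1 : l ≤ 1 := hl'.trans (min_le_left _ _)
    have hCθ : Cl K a b (fun x => ψ x + l * g x) := by
      intro x v hv
      obtain ⟨p1, p2⟩ := hCl x v hv
      obtain ⟨q1, q2⟩ := hf x v hv
      simp only [hg]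
      constructor
      · nlinarith [mul_le_mul_of_nonneg_left p1 (by linarith : 0 ≤ 1 - l),
          mul_le_mul_of_nonneg_left q1 hl.le]
      · nlinarith [mul_le_mul_of_nonneg_left p2 (by linarith : 0 ≤ 1 - l),
          mul_le_mul_of_nonneg_left q2 hl.le]
    have h1 := hmin _ hCθ (iexp l hl.le hl')
    unfold Phi at h1
    have e1 : ∫ x, (Real.exp (-β x) * ψ x + Real.exp (-ψ x)) =
        (∫ x, Real.exp (-β x) * ψ x) + ∫ x, Real.exp (-ψ x) := integral_add iβψ iψ
    have iβθ : Integrable (fun x => Real.exp (-β x) * (ψ x + l * g x)) := by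
      have := iβψ.add (iβg.const_mul l)
      refine this.congr (Eventually.of_forall fun x => ?_)
      simp only [Pi.add_apply]
      ring
    have e2 : ∫ x, (Real.exp (-β x) * (ψ x + l * g x) + Real.exp (-(ψ x + l * g x))) =
        (∫ x, Real.exp (-β x) * (ψ x + l * g x)) + ∫ x, Real.exp (-(ψ x + l * g x)) :=
      integral_add iβθ (iexp l hl.le hl')
    have e3 : ∫ x, Real.exp (-β x) * (ψ x + l * g x) =
        (∫ x, Real.exp (-β x) * ψ x) + l * ∫ x, Real.exp (-β x) * g x := by
      rw [← integral_const_mul, ← integral_add iβψ (iβg.const_mul l)]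
      refine integral_congr_ae (Eventually.of_forall fun x => ?_)
      simp only
      ring
    have e4 : (∫ x, Real.exp (-(ψ x + l * g x))) - ∫ x, Real.exp (-ψ x) ≤
        -(l * ∫ x, g x * Real.exp (-(ψ x + l * g x))) := by
      rw [← integral_sub (iexp l hl.le hl') iψ, ← integral_const_mul, ← integral_neg]
      refine integral_mono ((iexp l hl.le hl').sub iψ) (((iG l hl.le hl').1.const_mul l).neg)
        fun x => ?_
      have := exp_conv (-(ψ x + l * g x)) (-ψ x)
      simp only [Pi.sub_apply, Pi.neg_apply]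
      calc Real.exp (-(ψ x + l * g x)) - Real.exp (-ψ x)
          ≤ (-(ψ x + l * g x) - -ψ x) * Real.exp (-(ψ x + l * g x)) := this
        _ = -(l * (g x * Real.exp (-(ψ x + l * g x)))) := by ring
    rw [e1, e2, e3] at h1
    have h2 : l * ∫ x, g x * Real.exp (-(ψ x + l * g x)) ≤ l * ∫ x, Real.exp (-β x) * g x := by
      linarith
    exact le_of_mul_le_mul_left h2 hl
  -- the limit
  have lim : Tendsto (fun l : ℝ => ∫ x, g x * Real.exp (-(ψ x + l * g x))) (𝓝[>] 0)
      (𝓝 (∫ x, g x * Real.exp (-(ψ x + 0 * g x)))) := by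
    have hev : ∀ᶠ l : ℝ in 𝓝[>] 0, 0 ≤ l ∧ l ≤ l0 := by
      filter_upwards [Ioc_mem_nhdsGT hl0p] with l hl
      exact ⟨hl.1.le, hl.2⟩
    refine tendsto_integral_filter_of_dominated_convergence
      (fun x => B * Real.exp (c + c0 / 2) * ((1 + ‖x‖) ^ 1 * Real.exp (-(c0 / 2 * ‖x‖)))) ?_ ?_
      ((hINT d (c0 / 2) 1 (by positivity)).const_mul (B * Real.exp (c + c0 / 2))) ?_
    · exact Eventually.of_forall fun l => (by fun_prop : Continuous fun x =>
        g x * Real.exp (-(ψ x + l * g x))).aestronglyMeasurable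
    · filter_upwards [hev] with l hl
      exact Eventually.of_forall fun x => (iG l hl.1 hl.2).2 x
    · refine Eventually.of_forall fun x => ?_
      have : Continuous fun l : ℝ => g x * Real.exp (-(ψ x + l * g x)) := by fun_prop
      exact (this.tendsto 0).mono_left nhdsWithin_le_nhds
  have fin : ∫ x, g x * Real.exp (-(ψ x + 0 * g x)) ≤ ∫ x, Real.exp (-β x) * g x := by
    refine le_of_tendsto lim ?_
    filter_upwards [Ioc_mem_nhdsGT hl0p] with l hl
    exact key l hl.1 hl.2
  have e5 : ∫ x, g x * Real.exp (-(ψ x + 0 * g x)) = ∫ x, Real.exp (-ψ x) * g x := by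
    refine integral_congr_ae (Eventually.of_forall fun x => ?_)
    simp only
    rw [zero_mul, add_zero, mul_comm]
  rw [e5] at fin
  have e6 : ∫ x, (Real.exp (-ψ x) - Real.exp (-β x)) * f x =
      (∫ x, Real.exp (-ψ x) * f x) - ∫ x, Real.exp (-β x) * f x := by
    rw [← integral_sub iψf iβf]
    refine integral_congr_ae (Eventually.of_forall fun x => ?_)
    simp only
    ring
  have e7 : ∫ x, (Real.exp (-ψ x) - Real.exp (-β x)) * ψ x =
      (∫ x, Real.exp (-ψ x) * ψ x) - ∫ x, Real.exp (-β x) * ψ x := by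
    rw [← integral_sub iψψ iβψ]
    refine integral_congr_ae (Eventually.of_forall fun x => ?_)
    simp only
    ring
  have e8 : ∫ x, Real.exp (-ψ x) * g x =
      (∫ x, Real.exp (-ψ x) * f x) - ∫ x, Real.exp (-ψ x) * ψ x := by
    rw [← integral_sub iψf iψψ]
    refine integral_congr_ae (Eventually.of_forall fun x => ?_)
    simp only [hg]
    ring
  have e9 : ∫ x, Real.exp (-β x) * g x =
      (∫ x, Real.exp (-β x) * f x) - ∫ x, Real.exp (-β x) * ψ x := by
    rw [← integral_sub iβf iβψ]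
    refine integral_congr_ae (Eventually.of_forall fun x => ?_)
    simp only [hg]
    ring
  rw [e6, e7]
  rw [e8, e9] at fin
  linarith

end Pool.Agent.H62.MAH.FOC
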